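import Pool.Agent.SSO.Family
import Pool.Agent.SSO.Sharp

/-!
# MP_428b30_lc, Q1: bounded patterns for `S`-strong orientations

For a terminal set `S` with `k = |S| ≥ 2`, a hypergraph `H` has an `S`-strong orientation if and only
if one of the patterns `(W, f)` on `S` with at most `2k - 2` nodes and total size at most `5k - 6` is
realised in `H` by pairwise disjoint connected subgraphs of the link graph.  There are at most
`2 ^ ((2k - 2) ^ 2) * |V| ^ (k - 2)` such patterns on a node set `V`, and they do not depend on `H`.
So `SSO_k` is the disjunction of polynomially many rooted disjoint connected subgraphs problems with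
at most `2k - 2` root sets and at most `5k - 6` roots.  Both bounds are best possible for every `k`.
-/

namespace Pool.Agent.Results.MP_428b30_lc.BoundedPattern

open Pool.SSO

theorem result (k : ℕ) (hk : 2 ≤ k) :
    (∀ (V : Type) [Fintype V] (S : Finset V), S.card = k →
      {p : Finset V × (V → Finset V) | SmallPattern S p.1 p.2}.ncard ≤
          2 ^ ((2 * k - 2) * (2 * k - 2)) * Fintype.card V ^ (k - 2) ∧
        ∀ (E : Type) [Fintype E] (H : Hypergraph V E),
          (∃ o : Orientation H, o.Strong S) ↔
            ∃ (W : Finset V) (f : V → Finset V), SmallPattern S W f ∧ Realised H W f) ∧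
    ∃ (n : ℕ) (H : Hypergraph (Fin n) (Fin n)) (S : Finset (Fin n)), S.card = k ∧
      (∃ o : Orientation H, o.Strong S) ∧
      ∀ (W : Finset (Fin n)) (f : Fin n → Finset (Fin n)), IsPattern S W f → Realised H W f →
        2 * k - 2 ≤ W.card ∧ 5 * k - 6 ≤ ∑ w ∈ W, (f w).card := by
  classical
  constructor
  · intro V _ S hS
    exact ⟨ncard_small k hk S hS, fun E _ H => strong_iff S (by omega) H⟩
  · obtain ⟨m, rfl⟩ : ∃ m, k = m + 2 := ⟨k - 2, by omega⟩
    refine ⟨2 * m + 2, cat m, leaves m, card_leaves m, cat_strong m, ?_⟩
    intro W f hP hR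
    have := cat_lower m W f hP hR
    omega

end Pool.Agent.Results.MP_428b30_lc.BoundedPattern
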