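import Mathlib

set_option autoImplicit false

namespace Pool.Agent.Results.MP_428b30_lc.ConnectivityThreshold

open Finset

/-- A hypergraph with node type `V` and hyperedges indexed by `E` (so repetitions are allowed);
each hyperedge is a set of at least two nodes. -/
structure Hypergraph (V E : Type) where
  /-- the node set of a hyperedge -/
  edge : E → Finset V
  /-- every hyperedge has at least two nodes -/
  two_le_card : ∀ e, 2 ≤ (edge e).card

/-- An orientation of a hypergraph chooses one node of each hyperedge as its head. -/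
structure Orientation {V E : Type} (H : Hypergraph V E) where
  /-- the head of a hyperedge -/
  head : E → V
  /-- the head is a node of the hyperedge -/
  head_mem : ∀ e, head e ∈ H.edge e

/-- One step of an oriented hypergraph: from a tail node `u` of a hyperedge to its head `w`. -/
def Orientation.Step {V E : Type} {H : Hypergraph V E} (o : Orientation H) (u w : V) : Prop :=
  ∃ e, u ∈ H.edge e ∧ u ≠ o.head e ∧ w = o.head e

/-- An orientation is `S`-strong if any two nodes of `S` are mutually reachable. -/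
def Orientation.Strong {V E : Type} {H : Hypergraph V E} (o : Orientation H)
    (S : Finset V) : Prop :=
  ∀ u ∈ S, ∀ v ∈ S, Relation.ReflTransGen o.Step u v

/-- `CutAtLeast H S c`: every node set `X` that separates `S` (contains a node of `S` and misses a
node of `S`) is crossed by at least `c` hyperedges, where a hyperedge crosses `X` if it has a node
in `X` and a node outside `X`. -/
def CutAtLeast {V E : Type} [DecidableEq V] [Fintype E] (H : Hypergraph V E) (S : Finset V)
    (c : ℕ) : Prop :=
  ∀ X : Finset V, (∃ s ∈ S, s ∈ X) → (∃ s ∈ S, s ∉ X) →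
    c ≤ (univ.filter fun e : E => (∃ u ∈ H.edge e, u ∈ X) ∧ ∃ w ∈ H.edge e, w ∉ X).card

section aux

variable {V E : Type} [DecidableEq V] [Fintype E]

/-- crossing hyperedges of a family of sets -/
def cr (A : E → Finset V) (X : Finset V) : Finset E :=
  univ.filter fun e : E => (∃ u ∈ A e, u ∈ X) ∧ ∃ w ∈ A e, w ∉ X

lemma mem_cr {A : E → Finset V} {X : Finset V} {e : E} :
    e ∈ cr A X ↔ (∃ u ∈ A e, u ∈ X) ∧ ∃ w ∈ A e, w ∉ X := by
  simp [cr]

lemma not_mem_cr {A : E → Finset V} {X : Finset V} {e : E} :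
    e ∉ cr A X ↔ (∀ u ∈ A e, u ∈ X → ∀ w ∈ A e, w ∈ X) := by
  rw [mem_cr]
  constructor
  · intro h u hu hu2 w hw
    by_contra hw2
    exact h ⟨⟨u, hu, hu2⟩, w, hw, hw2⟩
  · rintro h ⟨⟨u, hu, hu2⟩, w, hw, hw2⟩
    exact hw2 (h u hu hu2 w hw)

/-- the separation predicate -/
def Sep (S X : Finset V) : Prop := (∃ s ∈ S, s ∈ X) ∧ ∃ s ∈ S, s ∉ X

/-- the cut condition -/
def Cond (A : E → Finset V) (S : Finset V) (k : ℕ) : Prop :=
  ∀ X : Finset V, Sep S X → k ≤ (cr A X).card

/-- step of a family with head function -/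
def St (A : E → Finset V) (h : E → V) (u w : V) : Prop :=
  ∃ e, u ∈ A e ∧ u ≠ h e ∧ w = h e

/-- goal for families -/
def Good (A : E → Finset V) (S : Finset V) : Prop :=
  ∃ h : E → V, (∀ e, (A e).Nonempty → h e ∈ A e) ∧
    ∀ u ∈ S, ∀ v ∈ S, Relation.ReflTransGen (St A h) u v

variable [DecidableEq E]

lemma card_submod (A : E → Finset V) (X Y : Finset V) :
    (cr A (X ∩ Y)).card + (cr A (X ∪ Y)).card ≤ (cr A X).card + (cr A Y).card := by
  have h1 : ∀ Z : Finset V, (cr A Z).card = ∑ e : E, if e ∈ cr A Z then 1 else 0 := by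
    intro Z; simp
  rw [h1 (X ∩ Y), h1 (X ∪ Y), h1 X, h1 Y, ← Finset.sum_add_distrib, ← Finset.sum_add_distrib]
  apply Finset.sum_le_sum
  intro e _
  by_cases hX : e ∈ cr A X <;> by_cases hY : e ∈ cr A Y
  · simp only [hX, hY, if_true]
    split_ifs <;> omega
  · have : ¬ (e ∈ cr A (X ∩ Y) ∧ e ∈ cr A (X ∪ Y)) := by
      rintro ⟨h3, h4⟩
      rw [not_mem_cr] at hY
      rw [mem_cr] at h3 h4
      obtain ⟨⟨u, hu, hu2⟩, _⟩ := h3
      obtain ⟨_, w, hw, hw2⟩ := h4
      simp only [mem_inter, mem_union, not_or] at *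
      exact hw2.2 (hY u hu hu2.2 w hw)
    simp only [hX, hY, if_true, if_false]
    split_ifs <;> first | omega | (exfalso; tauto)
  · have : ¬ (e ∈ cr A (X ∩ Y) ∧ e ∈ cr A (X ∪ Y)) := by
      rintro ⟨h3, h4⟩
      rw [not_mem_cr] at hX
      rw [mem_cr] at h3 h4
      obtain ⟨⟨u, hu, hu2⟩, _⟩ := h3
      obtain ⟨_, w, hw, hw2⟩ := h4
      simp only [mem_inter, mem_union, not_or] at *
      exact hw2.1 (hX u hu hu2.1 w hw)
    simp only [hX, hY, if_true, if_false]
    split_ifs <;> first | omega | (exfalso; tauto)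
  · have h2 : e ∉ cr A (X ∩ Y) := by
      rw [not_mem_cr] at *
      intro u hu hu2 w hw
      simp only [mem_inter] at *
      exact ⟨hX u hu hu2.1 w hw, hY u hu hu2.2 w hw⟩
    have h3 : e ∉ cr A (X ∪ Y) := by
      rw [not_mem_cr] at *
      intro u hu hu2 w hw
      simp only [mem_union] at *
      rcases hu2 with hu2 | hu2
      · exact Or.inl (hX u hu hu2 w hw)
      · exact Or.inr (hY u hu hu2 w hw)
    simp [hX, hY, h2, h3]

lemma card_diff_strict (A : E → Finset V) (X Y : Finset V) (e : E) (v : V) (hv : v ∈ X)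
    (heX : e ∈ cr A X) (heY : e ∈ cr A Y) (hY : ∀ u ∈ A e, u ∈ Y → u = v) :
    (cr A (X \ Y)).card + (cr A (Y \ X)).card + 1 ≤ (cr A X).card + (cr A Y).card := by
  have h1 : ∀ Z : Finset V, (cr A Z).card = ∑ e : E, if e ∈ cr A Z then 1 else 0 := by
    intro Z; simp
  have h2 : (1 : ℕ) = ∑ g : E, if g = e then 1 else 0 := by simp
  rw [h2, h1 (X \ Y), h1 (Y \ X), h1 X, h1 Y, ← Finset.sum_add_distrib,
    ← Finset.sum_add_distrib, ← Finset.sum_add_distrib]
  apply Finset.sum_le_sum
  intro g _
  by_cases hge : g = e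
  · subst hge
    have h3 : g ∉ cr A (Y \ X) := by
      rw [not_mem_cr]
      intro u hu hu2 w hw
      simp only [mem_sdiff] at *
      exact absurd (hY u hu hu2.1 ▸ hv) hu2.2
    simp only [heX, heY, h3, if_true, if_false]
    split_ifs <;> omega
  · simp only [hge, if_false, add_zero]
    by_cases hX : g ∈ cr A X <;> by_cases hY : g ∈ cr A Y
    · simp only [hX, hY, if_true]
      split_ifs <;> omega
    · have : ¬ (g ∈ cr A (X \ Y) ∧ g ∈ cr A (Y \ X)) := by
        rintro ⟨h3, h4⟩
        rw [not_mem_cr] at hY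
        rw [mem_cr] at h3 h4
        obtain ⟨⟨u, hu, hu2⟩, _⟩ := h3
        obtain ⟨⟨w, hw, hw2⟩, _⟩ := h4
        simp only [mem_sdiff] at *
        exact absurd (hY w hw hw2.1 u hu) hu2.2
      simp only [hX, hY, if_true, if_false]
      split_ifs <;> first | omega | (exfalso; tauto)
    · have : ¬ (g ∈ cr A (X \ Y) ∧ g ∈ cr A (Y \ X)) := by
        rintro ⟨h3, h4⟩
        rw [not_mem_cr] at hX
        rw [mem_cr] at h3 h4
        obtain ⟨⟨u, hu, hu2⟩, _⟩ := h3
        obtain ⟨⟨w, hw, hw2⟩, _⟩ := h4
        simp only [mem_sdiff] at *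
        exact absurd (hX u hu hu2.1 w hw) hw2.2
      simp only [hX, hY, if_true, if_false]
      split_ifs <;> first | omega | (exfalso; tauto)
    · have h3 : g ∉ cr A (X \ Y) := by
        rw [not_mem_cr] at *
        intro u hu hu2 w hw
        simp only [mem_sdiff] at *
        exact ⟨hX u hu hu2.1 w hw, fun hw2 => hu2.2 (hY w hw hw2 u hu)⟩
      have h4 : g ∉ cr A (Y \ X) := by
        rw [not_mem_cr] at *
        intro u hu hu2 w hw
        simp only [mem_sdiff] at *
        exact ⟨hY u hu hu2.1 w hw, fun hw2 => hu2.2 (hX w hw hw2 u hu)⟩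
      simp [hX, hY, h3, h4]

omit [DecidableEq E] in
lemma cr_compl [Fintype V] (A : E → Finset V) (X : Finset V) : cr A Xᶜ = cr A X := by
  ext e
  simp only [mem_cr, mem_compl, not_not]
  tauto

lemma sep_compl [Fintype V] {S X : Finset V} (h : Sep S X) : Sep S Xᶜ := by
  obtain ⟨⟨s, hs, hs2⟩, t, ht, ht2⟩ := h
  exact ⟨⟨t, ht, by simpa using ht2⟩, s, hs, by simpa using hs2⟩

/-- a failing cut can be chosen to contain a prescribed node -/
lemma exists_bad [Fintype V] {A : E → Finset V} {S : Finset V} {k : ℕ} (h : ¬ Cond A S k) (v : V) :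
    ∃ X, v ∈ X ∧ Sep S X ∧ (cr A X).card < k := by
  unfold Cond at h
  push Not at h
  obtain ⟨X, hX, hX2⟩ := h
  by_cases hv : v ∈ X
  · exact ⟨X, hv, hX, hX2⟩
  · exact ⟨Xᶜ, by simpa using hv, sep_compl hX, by rwa [cr_compl]⟩

lemma reduce [Fintype V] (A : E → Finset V) (S : Finset V) (k : ℕ) (hc : Cond A S k)
    (e : E) (v : V) (hve : v ∈ A e) (hvS : v ∉ S) :
    Cond (Function.update A e ((A e).erase v)) S k ∨
      ∃ f, f ≠ e ∧ v ∈ A f ∧
        Cond (Function.update (Function.update A e ∅) f (A e ∪ A f)) S k := by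
  classical
  by_contra hcon
  push Not at hcon
  obtain ⟨hcon1, hcon2⟩ := hcon
  -- tight set for detaching
  obtain ⟨Y0, hvY0, hsep0, hcard0⟩ := exists_bad hcon1 v
  have hsub : ∀ X, ∀ g, g ≠ e →
      (g ∈ cr (Function.update A e ((A e).erase v)) X ↔ g ∈ cr A X) := by
    intro X g hg
    simp only [mem_cr, Function.update_of_ne hg]
  have hk0 := hc Y0 hsep0
  have heY0 : e ∈ cr A Y0 := by
    by_contra h
    have : cr A Y0 ⊆ cr (Function.update A e ((A e).erase v)) Y0 := by
      intro g hg
      have hge : g ≠ e := fun h2 => h (h2 ▸ hg)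
      exact (hsub Y0 g hge).2 hg
    have := card_le_card this
    omega
  have heY0' : e ∉ cr (Function.update A e ((A e).erase v)) Y0 := by
    intro h
    have : cr A Y0 ⊆ cr (Function.update A e ((A e).erase v)) Y0 := by
      intro g hg
      by_cases hge : g = e
      · rw [hge]; exact h
      · exact (hsub Y0 g hge).2 hg
    have := card_le_card this
    omega
  have hcard0' : (cr A Y0).card = k := by
    have : cr A Y0 ⊆ insert e (cr (Function.update A e ((A e).erase v)) Y0) := by
      intro g hg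
      by_cases hge : g = e
      · rw [hge]; exact mem_insert_self _ _
      · exact mem_insert_of_mem ((hsub Y0 g hge).2 hg)
    have := card_le_card this
    have h3 := card_insert_le e (cr (Function.update A e ((A e).erase v)) Y0)
    omega
  have honly0 : ∀ u ∈ A e, u ∈ Y0 → u = v := by
    intro u hu hu2
    by_contra huv
    rw [not_mem_cr, Function.update_self] at heY0'
    obtain ⟨_, w, hw, hw2⟩ := mem_cr.1 heY0
    have hwv : w ≠ v := fun h => hw2 (h ▸ hvY0)
    exact hw2 (heY0' u (mem_erase.2 ⟨huv, hu⟩) hu2 w (mem_erase.2 ⟨hwv, hw⟩))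
  -- minimal tight set
  set T : Finset (Finset V) := univ.filter fun Y : Finset V =>
    v ∈ Y ∧ (∀ u ∈ A e, u ∈ Y → u = v) ∧ Sep S Y ∧ (cr A Y).card = k ∧ e ∈ cr A Y with hT
  have hY0T : Y0 ∈ T := by
    rw [hT, mem_filter]
    exact ⟨mem_univ _, hvY0, honly0, hsep0, hcard0', heY0⟩
  obtain ⟨Y, hYT, hYmin⟩ := exists_min_image T (fun Y => Y.card) ⟨Y0, hY0T⟩
  rw [hT, mem_filter] at hYT
  obtain ⟨-, hvY, honly, hsepY, hcardY, heY⟩ := hYT
  -- find f inside Y
  have hsepE : Sep S (Y.erase v) := by
    obtain ⟨⟨s, hs, hs2⟩, t, ht, ht2⟩ := hsepY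
    refine ⟨⟨s, hs, mem_erase.2 ⟨fun h => hvS (h ▸ hs), hs2⟩⟩, t, ht, fun h => ht2 (mem_of_mem_erase h)⟩
  have hkE := hc _ hsepE
  have hf : ∃ f ∈ cr A (Y.erase v), f ∉ cr A Y := by
    by_contra h
    push Not at h
    have hsub2 : cr A (Y.erase v) ⊆ (cr A Y).erase e := by
      intro g hg
      refine mem_erase.2 ⟨?_, h g hg⟩
      rintro rfl
      obtain ⟨⟨u, hu, hu2⟩, _⟩ := mem_cr.1 hg
      exact (mem_erase.1 hu2).1 (honly u hu (mem_of_mem_erase hu2))
    have h1 := card_le_card hsub2
    have h2 := card_erase_lt_of_mem heY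
    omega
  obtain ⟨f, hf1, hf2⟩ := hf
  have hfe : f ≠ e := by rintro rfl; exact hf2 heY
  obtain ⟨⟨u, hu, hu2⟩, w, hw, hw2⟩ := mem_cr.1 hf1
  rw [not_mem_cr] at hf2
  have hfY : ∀ w ∈ A f, w ∈ Y := hf2 u hu (mem_of_mem_erase hu2)
  have hvf : v ∈ A f := by
    have hwY := hfY w hw
    by_cases hwv : w = v
    · exact hwv ▸ hw
    · exact absurd (mem_erase.2 ⟨hwv, hwY⟩) hw2
  -- tight set for merging
  obtain ⟨X, hvX, hsepX, hcardX⟩ := exists_bad (hcon2 f hfe hvf) v
  set A' := Function.update (Function.update A e ∅) f (A e ∪ A f) with hA'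
  have hA'f : A' f = A e ∪ A f := by simp [hA']
  have hA'g : ∀ g, g ≠ e → g ≠ f → A' g = A g := by
    intro g hg1 hg2
    simp [hA', Function.update_of_ne hg2, Function.update_of_ne hg1]
  have hkX := hc X hsepX
  have hfX' : f ∈ cr A X → f ∈ cr A' X := by
    intro h
    obtain ⟨⟨u, hu, hu2⟩, w, hw, hw2⟩ := mem_cr.1 h
    exact mem_cr.2 ⟨⟨u, by rw [hA'f]; exact mem_union_right _ hu, hu2⟩,
      w, by rw [hA'f]; exact mem_union_right _ hw, hw2⟩
  have hfX'' : e ∈ cr A X → f ∈ cr A' X := by
    intro h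
    obtain ⟨⟨u, hu, hu2⟩, w, hw, hw2⟩ := mem_cr.1 h
    exact mem_cr.2 ⟨⟨u, by rw [hA'f]; exact mem_union_left _ hu, hu2⟩,
      w, by rw [hA'f]; exact mem_union_left _ hw, hw2⟩
  have hgX : ∀ g, g ≠ e → g ≠ f → (g ∈ cr A' X ↔ g ∈ cr A X) := by
    intro g hg1 hg2
    simp only [mem_cr, hA'g g hg1 hg2]
  have heX : e ∈ cr A X := by
    by_contra h
    have : cr A X ⊆ cr A' X := by
      intro g hg
      have hge : g ≠ e := fun h2 => h (h2 ▸ hg)
      by_cases hgf : g = f
      · subst hgf; exact hfX' hg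
      · exact (hgX g hge hgf).2 hg
    have := card_le_card this
    omega
  have hfX : f ∈ cr A X := by
    by_contra h
    have : cr A X ⊆ insert e ((cr A' X).erase f) := by
      intro g hg
      by_cases hge : g = e
      · rw [hge]; exact mem_insert_self _ _
      · have hgf : g ≠ f := fun h2 => h (h2 ▸ hg)
        exact mem_insert_of_mem (mem_erase.2 ⟨hgf, (hgX g hge hgf).2 hg⟩)
    have h1 := card_le_card this
    have h2 := card_insert_le e ((cr A' X).erase f)
    have h3 := card_erase_lt_of_mem (hfX'' heX)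
    omega
  have hcardX' : (cr A X).card = k := by
    have : cr A X ⊆ insert e (cr A' X) := by
      intro g hg
      by_cases hge : g = e
      · rw [hge]; exact mem_insert_self _ _
      · by_cases hgf : g = f
        · subst hgf; exact mem_insert_of_mem (hfX' hg)
        · exact mem_insert_of_mem ((hgX g hge hgf).2 hg)
    have h1 := card_le_card this
    have h2 := card_insert_le e (cr A' X)
    omega
  have hstrict := card_diff_strict A X Y e v hvX heX heY honly
  have hsub3 := card_submod A X Y
  have key : Sep S (X ∩ Y) ∧ Sep S (X ∪ Y) := by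
    obtain ⟨⟨a, ha, ha2⟩, b, hb, hb2⟩ := hsepX
    obtain ⟨⟨c, hc1, hc2⟩, d, hd, hd2⟩ := hsepY
    by_cases h1 : ∃ s ∈ S, s ∈ X \ Y
    · by_cases h2 : ∃ s ∈ S, s ∈ Y \ X
      · exfalso
        obtain ⟨s, hs, hs2⟩ := h1
        obtain ⟨t, ht, ht2⟩ := h2
        have h3 : Sep S (X \ Y) := ⟨⟨s, hs, hs2⟩, t, ht, by
          simp only [mem_sdiff] at *; tauto⟩
        have h4 : Sep S (Y \ X) := ⟨⟨t, ht, ht2⟩, s, hs, by
          simp only [mem_sdiff] at *; tauto⟩
        have h5 := hc _ h3
        have h6 := hc _ h4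
        omega
      · push Not at h2
        have h3 : ∀ s ∈ S, s ∈ Y → s ∈ X := by
          intro s hs hs2
          by_contra hs3
          exact h2 s hs (mem_sdiff.2 ⟨hs2, hs3⟩)
        refine ⟨⟨⟨c, hc1, mem_inter.2 ⟨h3 c hc1 hc2, hc2⟩⟩, b, hb, fun h => hb2 (mem_inter.1 h).1⟩,
          ⟨⟨a, ha, mem_union_left _ ha2⟩, b, hb, fun h => ?_⟩⟩
        rcases mem_union.1 h with h | h
        · exact hb2 h
        · exact hb2 (h3 b hb h)
    · push Not at h1
      have h3 : ∀ s ∈ S, s ∈ X → s ∈ Y := by
        intro s hs hs2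
        by_contra hs3
        exact h1 s hs (mem_sdiff.2 ⟨hs2, hs3⟩)
      refine ⟨⟨⟨a, ha, mem_inter.2 ⟨ha2, h3 a ha ha2⟩⟩, b, hb, fun h => hb2 (mem_inter.1 h).1⟩,
        ⟨⟨a, ha, mem_union_left _ ha2⟩, d, hd, fun h => ?_⟩⟩
      rcases mem_union.1 h with h | h
      · exact hd2 (h3 d hd h)
      · exact hd2 h
  have hk1 := hc _ key.1
  have hk2 := hc _ key.2
  have hcardI : (cr A (X ∩ Y)).card = k := by omega
  have hIT : X ∩ Y ∈ T := by
    rw [hT, mem_filter]
    refine ⟨mem_univ _, mem_inter.2 ⟨hvX, hvY⟩, fun u hu hu2 => honly u hu (mem_inter.1 hu2).2,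
      key.1, hcardI, ?_⟩
    obtain ⟨_, w, hw, hw2⟩ := mem_cr.1 heY
    exact mem_cr.2 ⟨⟨v, hve, mem_inter.2 ⟨hvX, hvY⟩⟩, w, hw, fun h => hw2 (mem_inter.1 h).2⟩
  have hmin := hYmin _ hIT
  have heq : X ∩ Y = Y := eq_of_subset_of_card_le inter_subset_right hmin
  obtain ⟨_, w, hw, hw2⟩ := mem_cr.1 hfX
  exact hw2 (mem_inter.1 (heq ▸ hfY w hw)).1

omit [Fintype E] in
lemma good_of_detach (A : E → Finset V) (S : Finset V) (e : E) (v : V) (hve : v ∈ A e)
    (h : Good (Function.update A e ((A e).erase v)) S) : Good A S := by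
  obtain ⟨h0, h1, h2⟩ := h
  refine ⟨fun g => if g = e ∧ h0 e ∉ A e then v else h0 g, ?_, ?_⟩
  · intro g hg
    by_cases hge : g = e
    · subst hge
      by_cases h3 : h0 g ∈ A g
      · simpa [h3] using h3
      · simpa [h3] using hve
    · have := h1 g (by rwa [Function.update_of_ne hge])
      rw [Function.update_of_ne hge] at this
      simpa [hge] using this
  · intro u hu w hw
    refine Relation.ReflTransGen.mono ?_ _ _ (h2 u hu w hw)
    rintro a b ⟨g, hg1, hg2, hg3⟩
    by_cases hge : g = e
    · subst hge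
      rw [Function.update_self] at hg1
      have h4 := h1 g (by rw [Function.update_self]; exact ⟨a, hg1⟩)
      rw [Function.update_self] at h4
      have h5 : h0 g ∈ A g := mem_of_mem_erase h4
      refine ⟨g, mem_of_mem_erase hg1, ?_, ?_⟩
      · simpa [h5] using hg2
      · simpa [h5] using hg3
    · rw [Function.update_of_ne hge] at hg1
      refine ⟨g, hg1, ?_, ?_⟩
      · simpa [hge] using hg2
      · simpa [hge] using hg3

omit [Fintype E] in
lemma good_of_merge (A : E → Finset V) (S : Finset V) (e f : E) (hfe : f ≠ e) (v : V)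
    (hve : v ∈ A e) (hvf : v ∈ A f)
    (h : Good (Function.update (Function.update A e ∅) f (A e ∪ A f)) S) : Good A S := by
  set A' := Function.update (Function.update A e ∅) f (A e ∪ A f) with hA'
  have hA'f : A' f = A e ∪ A f := by simp [hA']
  have hA'e : A' e = ∅ := by simp [hA', Function.update_of_ne hfe.symm]
  have hA'g : ∀ g, g ≠ e → g ≠ f → A' g = A g := by
    intro g hg1 hg2
    simp [hA', Function.update_of_ne hg2, Function.update_of_ne hg1]
  obtain ⟨h0, h1, h2⟩ := h
  have hf0 : h0 f ∈ A e ∪ A f := by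
    have := h1 f (by rw [hA'f]; exact ⟨v, mem_union_left _ hve⟩)
    rwa [hA'f] at this
  -- p: the hyperedge that gets head `h0 f`, q: the other one, which gets head `v`
  obtain ⟨p, q, hpq, hpqS, hp, hvp, hvq⟩ : ∃ p q : E, p ≠ q ∧ ((p = e ∧ q = f) ∨ (p = f ∧ q = e)) ∧
      h0 f ∈ A p ∧ v ∈ A p ∧ v ∈ A q := by
    rcases mem_union.1 hf0 with h3 | h3
    · exact ⟨e, f, hfe.symm, Or.inl ⟨rfl, rfl⟩, h3, hve, hvf⟩
    · exact ⟨f, e, hfe, Or.inr ⟨rfl, rfl⟩, h3, hvf, hve⟩
  refine ⟨fun g => if g = p then h0 f else if g = q then v else h0 g, ?_, ?_⟩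
  · intro g hg
    by_cases hgp : g = p
    · subst hgp; simpa using hp
    · by_cases hgq : g = q
      · subst hgq; simpa [hgp] using hvq
      · have hge : g ≠ e := by rcases hpqS with ⟨rfl, rfl⟩ | ⟨rfl, rfl⟩ <;> assumption
        have hgf : g ≠ f := by rcases hpqS with ⟨rfl, rfl⟩ | ⟨rfl, rfl⟩ <;> assumption
        have := h1 g (by rwa [hA'g g hge hgf])
        rw [hA'g g hge hgf] at this
        simpa [hgp, hgq] using this
  · intro u hu w hw
    have hqp : q ≠ p := hpq.symm
    -- from v one can reach the head of p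
    have hvh : Relation.ReflTransGen
        (St A fun g => if g = p then h0 f else if g = q then v else h0 g) v (h0 f) := by
      by_cases hv : v = h0 f
      · rw [← hv]
      · exact Relation.ReflTransGen.single ⟨p, hvp, by simpa using hv, by simp⟩
    have hstep : ∀ a b, St A' h0 a b → Relation.ReflTransGen
        (St A fun g => if g = p then h0 f else if g = q then v else h0 g) a b := by
      rintro a b ⟨g, hg1, hg2, hg3⟩
      by_cases hge : g = e
      · subst hge; rw [hA'e] at hg1; simp at hg1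
      · by_cases hgf : g = f
        · subst hgf
          subst hg3
          rw [hA'f] at hg1
          have h4 : a ∈ A p ∨ a ∈ A q := by
            rcases hpqS with ⟨rfl, rfl⟩ | ⟨rfl, rfl⟩ <;> rcases mem_union.1 hg1 with h5 | h5 <;> tauto
          rcases h4 with h4 | h4
          · exact Relation.ReflTransGen.single ⟨p, h4, by simpa using hg2, by simp⟩
          · by_cases hav : a = v
            · rw [hav]; exact hvh
            · refine Relation.ReflTransGen.head ⟨q, h4, ?_, ?_⟩ hvh
              · simpa [hqp] using hav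
              · simp [hqp]
        · have hgp : g ≠ p := by rcases hpqS with ⟨rfl, rfl⟩ | ⟨rfl, rfl⟩ <;> assumption
          have hgq : g ≠ q := by rcases hpqS with ⟨rfl, rfl⟩ | ⟨rfl, rfl⟩ <;> assumption
          rw [hA'g g hge hgf] at hg1
          refine Relation.ReflTransGen.single ⟨g, hg1, ?_, ?_⟩
          · simpa [hgp, hgq] using hg2
          · simpa [hgp, hgq] using hg3
    have h3 := h2 u hu w hw
    clear hw
    induction h3 with
    | refl => exact Relation.ReflTransGen.refl
    | tail _ hbc ih => exact ih.trans (hstep _ _ hbc)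

/-- growing a tree of hyperedges with heads away from the root `r` -/
lemma grow_out (A : E → Finset V) (S : Finset V) (hS : ∀ e, A e ⊆ S) (r : V) (hr : r ∈ S)
    (hc : Cond A S S.card) :
    ∀ n, n + 1 ≤ S.card → ∃ (C : Finset V) (F : Finset E) (h : E → V), C ⊆ S ∧ C.card = n + 1 ∧
      F.card = n ∧ (∀ e ∈ F, h e ∈ A e) ∧
      ∀ c ∈ C, Relation.ReflTransGen (fun u w => ∃ e ∈ F, u ∈ A e ∧ u ≠ h e ∧ w = h e) r c := by
  intro n
  induction n with
  | zero =>
    intro _
    refine ⟨{r}, ∅, fun _ => r, by simpa using hr, by simp, by simp, by simp, ?_⟩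
    intro c hcr
    rw [mem_singleton.1 hcr]
  | succ n ih =>
    intro hn
    obtain ⟨C, F, h, hCS, hCc, hFc, hh, hreach⟩ := ih (by omega)
    have hne : C.Nonempty := card_pos.1 (by omega)
    have hsep : Sep S C := by
      obtain ⟨c, hcC⟩ := hne
      refine ⟨⟨c, hCS hcC, hcC⟩, ?_⟩
      by_contra hcon
      push Not at hcon
      have := card_le_card (show S ⊆ C from hcon)
      omega
    have hk := hc C hsep
    obtain ⟨e, heC, heF⟩ : ∃ e ∈ cr A C, e ∉ F := by
      by_contra hcon
      push Not at hcon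
      have := card_le_card (show cr A C ⊆ F from hcon)
      omega
    obtain ⟨⟨u, hu, hu2⟩, w, hw, hw2⟩ := mem_cr.1 heC
    refine ⟨insert w C, insert e F, Function.update h e w, ?_, ?_, ?_, ?_, ?_⟩
    · exact insert_subset (hS e hw) hCS
    · rw [card_insert_of_notMem hw2, hCc]
    · rw [card_insert_of_notMem heF, hFc]
    · intro g hg
      rcases mem_insert.1 hg with rfl | hg
      · simpa using hw
      · have hge : g ≠ e := fun h2 => heF (h2 ▸ hg)
        simpa [Function.update_of_ne hge] using hh g hg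
    · have hmono : ∀ c ∈ C, Relation.ReflTransGen (fun u w' => ∃ g ∈ insert e F,
          u ∈ A g ∧ u ≠ Function.update h e w g ∧ w' = Function.update h e w g) r c := by
        intro c hcC
        refine Relation.ReflTransGen.mono ?_ _ _ (hreach c hcC)
        rintro a b ⟨g, hg, h3, h4, h5⟩
        have hge : g ≠ e := fun h2 => heF (h2 ▸ hg)
        exact ⟨g, mem_insert_of_mem hg, h3, by rwa [Function.update_of_ne hge],
          by rwa [Function.update_of_ne hge]⟩
      intro c hcC
      rcases mem_insert.1 hcC with rfl | hcC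
      · refine Relation.ReflTransGen.tail (hmono u hu2) ⟨e, mem_insert_self _ _, hu, ?_, ?_⟩
        · simp only [Function.update_self]
          rintro rfl; exact hw2 hu2
        · simp
      · exact hmono c hcC

/-- growing a set of nodes all of which reach the root, using hyperedges outside `G` -/
lemma grow_in (A : E → Finset V) (S : Finset V) (hS : ∀ e, A e ⊆ S) (r : V) (hr : r ∈ S)
    (G : Finset E) (hc : ∀ X, Sep S X → ∃ e ∈ cr A X, e ∉ G) :
    ∀ n, n + 1 ≤ S.card → ∃ (C : Finset V) (F : Finset E) (h : E → V), C ⊆ S ∧ n + 1 ≤ C.card ∧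
      Disjoint F G ∧ (∀ e ∈ F, h e ∈ A e) ∧ (∀ e ∈ F, A e ⊆ C) ∧ r ∈ C ∧
      ∀ c ∈ C, Relation.ReflTransGen (fun u w => ∃ e ∈ F, u ∈ A e ∧ u ≠ h e ∧ w = h e) c r := by
  intro n
  induction n with
  | zero =>
    intro _
    refine ⟨{r}, ∅, fun _ => r, by simpa using hr, by simp, by simp, by simp, by simp, by simp, ?_⟩
    intro c hcr
    rw [mem_singleton.1 hcr]
  | succ n ih =>
    intro hn
    obtain ⟨C, F, h, hCS, hCc, hFG, hh, hFC, hrC, hreach⟩ := ih (by omega)
    by_cases hCn : n + 1 + 1 ≤ C.card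
    · exact ⟨C, F, h, hCS, hCn, hFG, hh, hFC, hrC, hreach⟩
    have hsep : Sep S C := by
      refine ⟨⟨r, hr, hrC⟩, ?_⟩
      by_contra hcon
      push Not at hcon
      have := card_le_card (show S ⊆ C from hcon)
      omega
    obtain ⟨e, heC, heG⟩ := hc C hsep
    obtain ⟨⟨u, hu, hu2⟩, w, hw, hw2⟩ := mem_cr.1 heC
    have heF : e ∉ F := fun h2 => hw2 (hFC e h2 hw)
    refine ⟨C ∪ A e, insert e F, Function.update h e u, ?_, ?_, ?_, ?_, ?_, ?_, ?_⟩
    · exact union_subset hCS (hS e)
    · have : C ⊂ C ∪ A e := by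
        refine Finset.ssubset_iff_subset_ne.2 ⟨subset_union_left, ?_⟩
        intro h2
        exact hw2 (h2 ▸ mem_union_right _ hw)
      have := card_lt_card this
      omega
    · rw [disjoint_insert_left]
      exact ⟨heG, hFG⟩
    · intro g hg
      rcases mem_insert.1 hg with rfl | hg
      · simpa using hu
      · have hge : g ≠ e := fun h2 => heF (h2 ▸ hg)
        simpa [Function.update_of_ne hge] using hh g hg
    · intro g hg
      rcases mem_insert.1 hg with rfl | hg
      · exact subset_union_right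
      · exact (hFC g hg).trans subset_union_left
    · exact mem_union_left _ hrC
    · have hmono : ∀ c ∈ C, Relation.ReflTransGen (fun u' w' => ∃ g ∈ insert e F,
          u' ∈ A g ∧ u' ≠ Function.update h e u g ∧ w' = Function.update h e u g) c r := by
        intro c hcC
        refine Relation.ReflTransGen.mono ?_ _ _ (hreach c hcC)
        rintro a b ⟨g, hg, h3, h4, h5⟩
        have hge : g ≠ e := fun h2 => heF (h2 ▸ hg)
        exact ⟨g, mem_insert_of_mem hg, h3, by rwa [Function.update_of_ne hge],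
          by rwa [Function.update_of_ne hge]⟩
      intro c hcC
      rcases mem_union.1 hcC with hcC | hcC
      · exact hmono c hcC
      · by_cases hcu : c = u
        · rw [hcu]; exact hmono u hu2
        · refine Relation.ReflTransGen.head ⟨e, mem_insert_self _ _, hcC, ?_, ?_⟩ (hmono u hu2)
          · simpa using hcu
          · simp

lemma base (A : E → Finset V) (S : Finset V) (hS : ∀ e, A e ⊆ S) (hne : S.Nonempty)
    (hc : Cond A S S.card) : Good A S := by
  obtain ⟨r, hr⟩ := hne
  have hpos : 1 ≤ S.card := card_pos.2 ⟨r, hr⟩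
  obtain ⟨C, F, h, hCS, hCc, hFc, hh, hreach⟩ := grow_out A S hS r hr hc (S.card - 1) (by omega)
  have hCeq : C = S := eq_of_subset_of_card_le hCS (by omega)
  subst hCeq
  obtain ⟨C', F', h', hCS', hCc', hFG', hh', -, -, hreach'⟩ := grow_in A C hS r hr F (by
    intro X hX
    by_contra hcon
    push Not at hcon
    have h1 := card_le_card (show cr A X ⊆ F from hcon)
    have h2 := hc X hX
    omega) (C.card - 1) (by omega)
  have hCeq' : C' = C := eq_of_subset_of_card_le hCS' (by omega)
  subst hCeq'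
  classical
  refine ⟨fun e => if e ∈ F then h e else if e ∈ F' then h' e else
    if hn : (A e).Nonempty then hn.choose else r, ?_, ?_⟩
  · intro e he
    by_cases h1 : e ∈ F
    · simpa [h1] using hh e h1
    · by_cases h2 : e ∈ F'
      · simpa [h1, h2] using hh' e h2
      · simpa [h1, h2, he] using he.choose_spec
  · intro u hu v hv
    refine Relation.ReflTransGen.trans (b := r) ?_ ?_
    · refine Relation.ReflTransGen.mono ?_ _ _ (hreach' u hu)
      rintro a b ⟨g, hg, h3, h4, h5⟩
      have h1 : g ∉ F := fun h2 => (disjoint_left.1 hFG' hg) h2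
      exact ⟨g, h3, by simpa [h1, hg] using h4, by simpa [h1, hg] using h5⟩
    · refine Relation.ReflTransGen.mono ?_ _ _ (hreach v hv)
      rintro a b ⟨g, hg, h3, h4, h5⟩
      exact ⟨g, h3, by simpa [hg] using h4, by simpa [hg] using h5⟩

lemma main_aux [Fintype V] (S : Finset V) (hne : S.Nonempty) :
    ∀ (n : ℕ) (A : E → Finset V), ∑ e, (A e).card ≤ n → Cond A S S.card → Good A S := by
  intro n
  induction n with
  | zero =>
    intro A hA hc
    refine base A S ?_ hne hc
    intro e
    have h1 : (A e).card ≤ 0 := by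
      refine le_trans ?_ hA
      exact single_le_sum (f := fun e => (A e).card) (fun _ _ => Nat.zero_le _) (mem_univ e)
    have : A e = ∅ := card_eq_zero.1 (by omega)
    simp [this]
  | succ n ih =>
    intro A hA hc
    by_cases hS : ∀ e, A e ⊆ S
    · exact base A S hS hne hc
    push Not at hS
    obtain ⟨e, he⟩ := hS
    obtain ⟨v, hve, hvS⟩ := not_subset.1 he
    rcases reduce A S S.card hc e v hve hvS with h1 | ⟨f, hfe, hvf, h1⟩
    · refine good_of_detach A S e v hve (ih _ ?_ h1)
      have h2 : ∑ g, (Function.update A e ((A e).erase v) g).card < ∑ g, (A g).card := by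
        apply sum_lt_sum
        · intro g _
          by_cases hge : g = e
          · subst hge; simpa using card_le_card (erase_subset v (A g))
          · rw [Function.update_of_ne hge]
        · exact ⟨e, mem_univ _, by simpa using card_erase_lt_of_mem hve⟩
      omega
    · refine good_of_merge A S e f hfe v hve hvf (ih _ ?_ h1)
      set A' := Function.update (Function.update A e ∅) f (A e ∪ A f) with hA'
      have hA'f : A' f = A e ∪ A f := by simp [hA']
      have hA'e : A' e = ∅ := by simp [hA', Function.update_of_ne hfe.symm]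
      have hA'g : ∀ g, g ≠ e → g ≠ f → A' g = A g := by
        intro g hg1 hg2
        simp [hA', Function.update_of_ne hg2, Function.update_of_ne hg1]
      have h3 : ∀ B : E → Finset V, ∑ g, (B g).card =
          (B e).card + ((B f).card + ∑ g ∈ (univ.erase e).erase f, (B g).card) := by
        intro B
        rw [add_sum_erase (univ.erase e) (fun g => (B g).card) (mem_erase.2 ⟨hfe, mem_univ f⟩),
          add_sum_erase univ (fun g => (B g).card) (mem_univ e)]
      have h4 : ∑ g ∈ (univ.erase e).erase f, (A' g).card =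
          ∑ g ∈ (univ.erase e).erase f, (A g).card := by
        apply sum_congr rfl
        intro g hg
        rw [hA'g g (mem_erase.1 (mem_erase.1 hg).2).1 (mem_erase.1 hg).1]
      have h5 := card_union_add_card_inter (A e) (A f)
      have h6 : 1 ≤ (A e ∩ A f).card := card_pos.2 ⟨v, mem_inter.2 ⟨hve, hvf⟩⟩
      rw [h3 A] at hA
      rw [h3 A', h4, hA'e, hA'f, card_empty]
      omega

end aux

/-- **Threshold theorem.** For `k ≥ 2`, the least `c` such that every finite hypergraph with a set
`S` of `k` terminals, in which every node set separating `S` is crossed by at least `c` hyperedges,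
has an `S`-strong orientation is exactly `k`. -/
theorem result (k : ℕ) (hk : 2 ≤ k) :
    IsLeast {c : ℕ | ∀ (V E : Type) [Fintype V] [DecidableEq V] [Fintype E]
      (H : Hypergraph V E) (S : Finset V), S.card = k → CutAtLeast H S c →
        ∃ o : Orientation H, o.Strong S} k := by
  classical
  constructor
  · intro V E _ _ _ H S hS hcut
    have hne : S.Nonempty := card_pos.1 (by omega)
    obtain ⟨h, h1, h2⟩ := main_aux S hne _ H.edge le_rfl (by
      intro X hX
      have := hcut X hX.1 hX.2
      rw [hS]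
      exact this)
    have h3 : ∀ e, h e ∈ H.edge e := fun e => h1 e (card_pos.1 (by have := H.two_le_card e; omega))
    exact ⟨⟨h, h3⟩, h2⟩
  · intro c hc
    by_contra hlt
    push Not at hlt
    -- k - 1 copies of the full hyperedge on `Fin k`
    have hkk : (univ : Finset (Fin k)).card = k := by simp
    obtain ⟨o, ho⟩ := hc (Fin k) (Fin (k - 1))
      ⟨fun _ => univ, fun _ => by rw [hkk]; exact hk⟩ univ hkk (by
        rintro X ⟨s, _, hs⟩ ⟨t, _, ht⟩
        have : (univ.filter fun e : Fin (k - 1) => (∃ u ∈ (univ : Finset (Fin k)), u ∈ X) ∧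
            ∃ w ∈ (univ : Finset (Fin k)), w ∉ X) = univ := by
          apply filter_true_of_mem
          intro e _
          exact ⟨⟨s, mem_univ _, hs⟩, t, mem_univ _, ht⟩
        simp only [this, card_univ, Fintype.card_fin]
        omega)
    have hsurj : Function.Surjective o.head := by
      intro s
      obtain ⟨t, hts⟩ : ∃ t : Fin k, t ≠ s := by
        have : Nontrivial (Fin k) := Fin.nontrivial_iff_two_le.2 hk
        exact exists_ne s
      have h1 := ho t (mem_univ _) s (mem_univ _)
      rcases Relation.ReflTransGen.cases_tail h1 with h2 | ⟨b, _, e, _, _, h3⟩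
      · exact absurd h2.symm hts
      · exact ⟨e, h3.symm⟩
    have := Fintype.card_le_of_surjective _ hsurj
    simp only [Fintype.card_fin] at this
    omega

end Pool.Agent.Results.MP_428b30_lc.ConnectivityThreshold
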